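import Pool.Agent.Helper5.TL.Wrap

/-!
# Growth of virtually solvable linear groups in characteristic zero, polynomial in the dimension

Let `F` be a field of characteristic zero and `S` a nonempty finite subset of `GL_d(F)` such that
`⟨S⟩` is virtually solvable. Then either `⟨S⟩` is virtually nilpotent or there is a ratio `θ` of two
eigenvalues of an element of `⟨S⟩`, not a root of unity, such that the exponential growth rate `ρ`
of `S` satisfies: `ρ ≥ 2 log 2 / (3 d ^ 2)` if `θ` is not an algebraic unit, and
`ρ ≥ log 2 / (33 d ^ 2 D ^ 2)`, `ρ ≥ min(|log |z||, log 4) / (5 d ^ 2)` for every conjugate `z` of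
`θ`, if `θ` is an algebraic unit of degree `D`. If the elements of `F` algebraic over `ℚ` form a
field of finite degree `m` over `ℚ` then `ρ ≥ log 2 / (33 d ^ 6 m ^ 2)`.
-/

namespace Pool.Agent.Helper5.Retired.LinearPolynomialBound

open Pointwise Filter Topology

universe u

theorem result {F : Type u} [Field F] [CharZero F] (d : ℕ)
    [DecidableEq (GL (Fin d) F)] (S : Finset (GL (Fin d) F)) (hS : S.Nonempty)
    (hsol : ∃ H : Subgroup (Subgroup.closure (S : Set (GL (Fin d) F))),
      H.FiniteIndex ∧ Group.IsSolvable H) :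
    ∃ ρ : ℝ, Tendsto (fun n : ℕ => Real.log ((S ^ n).card : ℝ) / n) atTop (𝓝 ρ) ∧
      ((∃ H : Subgroup (Subgroup.closure (S : Set (GL (Fin d) F))),
        H.FiniteIndex ∧ Group.IsNilpotent H) ∨
        ((∃ g ∈ Subgroup.closure (S : Set (GL (Fin d) F)), ∃ x y : AlgebraicClosure F,
          (((g : Matrix (Fin d) (Fin d) F).map
            (algebraMap F (AlgebraicClosure F))).charpoly).IsRoot x ∧
          (((g : Matrix (Fin d) (Fin d) F).map
            (algebraMap F (AlgebraicClosure F))).charpoly).IsRoot y ∧
          Pool.Agent.Helper5.TL.RatioBound (x / y) d ρ) ∧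
        (FiniteDimensional ℚ (algebraicClosure ℚ F) →
          Real.log 2 / (33 * d ^ 6 * (Module.finrank ℚ (algebraicClosure ℚ F)) ^ 2) ≤ ρ))) :=
  Pool.Agent.Helper5.TL.final_char0 d S hS hsol

end Pool.Agent.Helper5.Retired.LinearPolynomialBound
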